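import Pool.Agent.MP_3ee8cb_gt.SLG.Fin

/-! Uniformly close metrics are a special case. -/

namespace Pool.Agent.MP_3ee8cb_gt.SLG

open Pool.Agent.MP_3ee8cb_gt.SL Pool.Agent.MP_3ee8cb_gt.SLL

theorem localC0 (n : ℕ) (hn : 3 ≤ n) (k : ℝ) : ∃ e : ℝ, 0 < e ∧ ∀ (g h : Met n) (Γ : Type)
    [Group Γ] [MulAction Γ (E n)] (Φ : ℝ → UT g → UT g) (Ψ : ℝ → UT h → UT h)
    (f : UM g Γ ≃ₜ UM h Γ), Riem g → Riem h → Deck g Γ → Deck h Γ → SL3.Smooth h Γ → IsFlow g Φ →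
    IsFlow h Ψ → Conj Φ Ψ f → Marked f → SL3.Pinched h k → Near g h e → IsoId g h Γ := by
  obtain ⟨e, he, A⟩ := allG n hn k
  refine ⟨e / 4, by linarith, ?_⟩
  intro g h Γ _ _ Φ Ψ f hg hh dg dh sh fg fh hf mk ⟨a, b, ha, hb, C, c, K⟩ N
  refine A g h Γ Γ Φ Ψ f (MulEquiv.refl Γ) id a hg hh dg dh (sh.act 2) (sh.act 2) fg fh hf mk ha
    ⟨C, c, fun x u v => ⟨?_, (K x u v).2⟩⟩ (fun _ _ => rfl) ?_
  · obtain ⟨h, rfl, rh⟩ := link_riem hh
    have q := sub_nonneg.2 (TB.mod_cs rh x u v)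
    have := mul_le_mul_of_nonneg_right hb.le q
    have := (K x u v).1
    simp only [pl] at this ⊢
    linarith
  · obtain ⟨g, rfl, rg⟩ := link_riem hg
    obtain ⟨h, rfl, rh⟩ := link_riem hh
    have qg := LV.all_qp (by omega) rg (link_deck dg) (link_flow rg fg)
    have qh := LV.all_qp (by omega) rh (link_deck dh) (link_flow rh fh)
    intro x y
    rw [rd_eq qg.rp, rd_eq qh.rp, id, id]
    intro l
    have l1 := DLS.dd_le rg rh qg.rp.db qh.rp.db (c := 1 + e / 4) (by linarith)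
      (fun x v => (N x v).1) x y
    have l2 := DLS.dd_le rh rg qh.rp.db qg.rp.db (c := 1 + e / 4) (by linarith)
      (fun x v => (N x v).2) x y
    have b1 : |CR.dd h x y - CR.dd g x y| ≤ e / 4 * CR.dd g x y := by
      rcases le_total (CR.dd h x y) (CR.dd g x y) with o | o
      · rw [abs_of_nonpos (by linarith)]
        nlinarith
      · rw [abs_of_nonneg (by linarith)]
        linarith
    nlinarith [mul_le_mul_of_nonneg_left b1 ha.le]

end Pool.Agent.MP_3ee8cb_gt.SLG
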