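import Pool.Agent.MP_3ee8cb_gt.SL.Liou

namespace Pool.Agent.MP_3ee8cb_gt.SLG

open Pool.Agent.MP_3ee8cb_gt.SL

variable {n : ℕ}

/-- The group acts by maps of class `C²`. -/
def Act2 (n : ℕ) (Γ : Type) [Group Γ] [MulAction Γ (E n)] : Prop :=
  ∀ γ : Γ, ContDiff ℝ 2 fun x : E n => γ • x

/-- All sectional curvatures of `h` lie in `[-k * a ^ 2, -a ^ 2]`. -/
def Band (h : Met n) (a k : ℝ) : Prop := ∃ C, IsChr h C ∧ ∀ x u v,
  -(k * a ^ 2) * (h x u u * h x v v - h x u v ^ 2) ≤ h x (Rm C x u v v) u ∧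
    h x (Rm C x u v v) u ≤ -a ^ 2 * (h x u u * h x v v - h x u v ^ 2)

/-- The length of the curve `c` on `[0, 1]`. -/
noncomputable def len (g : Met n) (c : ℝ → E n) : ℝ :=
  ∫ t in (0 : ℝ)..1, √(g (c t) (deriv c t) (deriv c t))

/-- The Riemannian distance: the infimum of the lengths of `C¹` curves from `x` to `y`. -/
noncomputable def rd (g : Met n) (x y : E n) : ℝ :=
  sInf {L | ∃ c : ℝ → E n, ContDiff ℝ 1 c ∧ c 0 = x ∧ c 1 = y ∧ L = len g c}

/-- `φ` changes distances up to `4 / a` by at most `e / a`. -/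
def Rough (g h : Met n) (φ : E n → E n) (a e : ℝ) : Prop :=
  ∀ x y, a * rd g x y ≤ 4 → a * |rd h (φ x) (φ y) - rd g x y| ≤ e

variable {Γ Λ : Type} [Group Γ] [Group Λ] [MulAction Γ (E n)] [MulAction Λ (E n)]

/-- `φ` is equivariant. -/
def Equi (ρ : Γ ≃* Λ) (φ : E n → E n) : Prop := ∀ (γ : Γ) (x : E n), φ (γ • x) = ρ γ • φ x

/-- `f` induces `ρ` on the fundamental groups: it has a continuous equivariant lift. -/
def Induces {g h : Met n} (f : UM g Γ → UM h Λ) (ρ : Γ ≃* Λ) : Prop :=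
  ∃ F : UT g → UT h, Continuous F ∧ (∀ p, f (Quot.mk _ p) = Quot.mk _ (F p)) ∧
    ∀ (γ : Γ) (p q : UT g), q.1 = tm γ p.1 → (F q).1 = tm (ρ γ) (F p).1

/-- An equivariant isometry of the universal covers. -/
def IsoVia (g h : Met n) (ρ : Γ ≃* Λ) : Prop :=
  ∃ F : E n → E n, Function.Bijective F ∧ ContDiff ℝ 1 F ∧
    (∀ x u v, h (F x) (dE F x u) (dE F x v) = g x u v) ∧ Equi ρ F

end Pool.Agent.MP_3ee8cb_gt.SLG
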