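import Pool.Agent.MP_3ee8cb_gt.DLG.Main
import Pool.Agent.MP_3ee8cb_gt.SLL.All
import Pool.Agent.MP_3ee8cb_gt.SLG.Defs

/-! Rigidity under a rough isometry: the statement layer. -/

namespace Pool.Agent.MP_3ee8cb_gt.SLG

open DN (Dim dm)

section

open CR LV

variable {n : ℕ}

theorem lift_eq {g h : Met n} {Γ Λ : Type} [Group Γ] [MulAction Γ (E n)] [Group Λ]
    [MulAction Λ (E n)] {Φ : ℝ → UT g → UT g} {Ψ : ℝ → UT h → UT h} {ρ : Γ ≃* Λ}
    (f : UM g Γ ≃ₜ UM h Λ) (hn : 3 ≤ n) (A : RP g Γ Φ) (B : RP h Λ Ψ)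
    (hf : ∀ t p q, f (Quot.mk _ p) = Quot.mk _ q → f (Quot.mk _ (Φ t p)) = Quot.mk _ (Ψ t q))
    {F : UT g → UT h} (cF : Continuous F) (lF : ∀ p, f (Quot.mk _ p) = Quot.mk _ (F p))
    (eF : ∀ (γ : Γ) (p q : UT g), q.1 = tm γ p.1 → (F q).1 = tm (ρ γ) (F p).1) :
    ∃ G : UT g ≃ₜ UT h, CJ g h Φ Ψ ρ G := by
  obtain ⟨-, F', -, lF'⟩ := lift2 n g h Γ Λ Φ Ψ f hn A B hf
  let := lift_act B.deck
  have hq := lift_cov B.deck
  obtain ⟨⟨c₀⟩, cX, -⟩ := lift_ut hn A.riem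
  obtain ⟨γ, hγ⟩ := hq.apply_eq_iff_mem_orbit.1 ((lF c₀).symm.trans (lF' c₀))
  have h2 : F = fun a => γ • F' a :=
    hq.isCoveringMap.eq_of_comp_eq cF ((hq.continuous_const_smul γ).comp F'.continuous)
      (funext fun a => ((lF a).symm.trans (lF' a)).trans (hq.map_smul γ).symm) c₀ hγ.symm
  have h3 := congrFun h2
  refine ⟨{
    toFun := F
    invFun := fun b => F'.symm (γ⁻¹ • b)
    left_inv := fun a => by simp only [h3, inv_smul_smul, F'.symm_apply_apply]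
    right_inv := fun b => by simp only [h3, F'.apply_symm_apply, smul_inv_smul]
    continuous_toFun := cF
    continuous_invFun := F'.symm.continuous.comp (hq.continuous_const_smul γ⁻¹) },
    fun t c => ?_, eF⟩
  exact congrFun (hq.isCoveringMap.eq_of_comp_eq (cF.comp (A.fl.cont c)) (B.fl.cont (F c))
    (funext fun t => (lF _).symm.trans (hf t c (F c) (lF c))) 0
    (by rw [Function.comp_apply, A.flow.zero, B.flow.zero])) t

theorem rd_eq {g : Met n} {Γ : Type} [Group Γ] [MulAction Γ (E n)] {Φ : ℝ → UT g → UT g}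
    (A : RP g Γ Φ) (x y : E n) : rd (SL.pl g) x y = dd g x y := by
  refine IsLeast.csInf_eq ⟨?_, ?_⟩
  · obtain ⟨p, h1, h2⟩ := A.hr x y
    have d0 := A.db.nonneg x y
    generalize dd g x y = d at h2 d0 ⊢
    have hd : ∀ t, HasDerivAt (fun s => (Φ (d * s) p).1.1) (d • (Φ (d * t) p).1.2) t := fun t => by
      have := (A.flow.vel p (d * t)).scomp t ((hasDerivAt_id t).const_mul d)
      rwa [mul_one] at this
    have e : deriv (fun s => (Φ (d * s) p).1.1) = fun t => d • (Φ (d * t) p).1.2 :=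
      funext fun t => (hd t).deriv
    have c := A.fl.cont p
    refine ⟨fun s => (Φ (d * s) p).1.1, contDiff_one_iff_deriv.2
      ⟨fun t => (hd t).differentiableAt, by rw [e]; fun_prop⟩, ?_, ?_, ?_⟩
    · simp only [mul_zero, A.flow.zero, h1]
    · simp only [mul_one, h2]
    · have k : ∀ t, √(g (Φ (d * t) p).1.1 (d • (Φ (d * t) p).1.2) (d • (Φ (d * t) p).1.2)) = d :=
        fun t => by
          simp only [map_smul, smul_apply, smul_eq_mul, (Φ (d * t) p).2, mul_one]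
          exact Real.sqrt_mul_self d0
      simp only [len, e, k, intervalIntegral.integral_const, sub_zero, one_smul]
  · rintro L ⟨c, hc, rfl, rfl, rfl⟩
    obtain ⟨h1, h2⟩ := contDiff_one_iff_deriv.1 hc
    exact (CR.len n g A.riem A.db).2 c (deriv c) 0 1 zero_le_one
      (fun t _ => (h1 t).hasDerivAt) h2.continuousOn

end

open Pool.Agent.MP_3ee8cb_gt.SL

theorem link_band {n : ℕ} {h : CR.Met n} (hh : CR.Riem h) {a k : ℝ} (H : Band (pl h) a k) :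
    ∃ C, TB.IsChr h C ∧ ∀ x u v,
      -(k * a ^ 2) * (h x u u * h x v v - h x u v ^ 2) ≤ h x (TB.Rm C x u v v) u ∧
        h x (TB.Rm C x u v v) u ≤ -a ^ 2 * (h x u u * h x v v - h x u v ^ 2) := by
  obtain ⟨C, c, K⟩ := H
  obtain ⟨C', c', -⟩ := link_curv hh (a := a) ⟨C, c, fun x u v => (K x u v).2⟩
  have e : C = fun x u v => C' x u v := by
    funext x u v
    refine TB.gam_inj hh x ?_
    ext1 w
    have e1 := c x u v w
    rw [link_dR hh, link_dR hh, link_dR hh, ← c' x u v w] at e1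
    simp only [pl] at e1
    linarith
  subst e
  refine ⟨C', c', fun x u v => ?_⟩
  have d : DifferentiableAt ℝ C' x :=
    ((TB.gam n h C' hh c').smooth.differentiable (by norm_num)).differentiableAt
  have := K x u v
  unfold Rm dE at this
  rw [TB.gam_fderiv_apply d, TB.gam_fderiv_apply d] at this
  exact this

theorem finG [Dim] {k k' e : ℝ} (hk : k ≤ k') (A : DLG.MainG k' e) (g h : Met dm) (Γ Λ : Type)
    [Group Γ] [Group Λ] [MulAction Γ (E dm)] [MulAction Λ (E dm)] (Φ : ℝ → UT g → UT g)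
    (Ψ : ℝ → UT h → UT h) (f : UM g Γ ≃ₜ UM h Λ) (ρ : Γ ≃* Λ) (φ : E dm → E dm) (a : ℝ)
    (hg : Riem g) (hh : Riem h) (dg : Deck g Γ) (dh : Deck h Λ) (sg : Act2 dm Γ) (sh : Act2 dm Λ)
    (fg : IsFlow g Φ) (fh : IsFlow h Ψ) (hf : Conj Φ Ψ f) (mk : Induces f ρ) (ha : 0 < a)
    (hN : Band h a k) (eq : Equi ρ φ) (N : Rough g h φ a e) : IsoVia g h ρ := by
  obtain ⟨g, rfl, rg⟩ := link_riem hg
  obtain ⟨h, rfl, rh⟩ := link_riem hh
  have n0 : 0 < dm := Nat.succ_pos _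
  have qg := LV.all_qp n0 rg (link_deck dg) (link_flow rg fg)
  have qh := LV.all_qp n0 rh (link_deck dh) (link_flow rh fh)
  obtain ⟨F₀, cF, lF, eF⟩ := mk
  obtain ⟨F, cj⟩ := lift_eq f (Nat.le_add_left 3 _) qg.rp qh.rp hf cF lF eF
  obtain ⟨C', c', K⟩ := link_band rh hN
  obtain ⟨C, c⟩ := DZS.exists_chr rg
  refine A g h C C' Γ Λ Φ Ψ ρ F qg qh c c' sg sh cj a ha (fun x u v => ⟨?_, (K x u v).2⟩) φ eq
    fun x y => ?_
  · have q := sub_nonneg.2 (TB.mod_cs rh x u v)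
    have := mul_le_mul_of_nonneg_right (mul_le_mul_of_nonneg_right hk (sq_nonneg a)) q
    linarith [(K x u v).1]
  · have := N x y
    rwa [rd_eq qg.rp, rd_eq qh.rp] at this

/-- Rigidity under a rough isometry, every dimension, every pinching constant. -/
theorem allG (n : ℕ) (hn : 3 ≤ n) (k : ℝ) : ∃ e : ℝ, 0 < e ∧ ∀ (g h : Met n) (Γ Λ : Type)
    [Group Γ] [Group Λ] [MulAction Γ (E n)] [MulAction Λ (E n)] (Φ : ℝ → UT g → UT g)
    (Ψ : ℝ → UT h → UT h) (f : UM g Γ ≃ₜ UM h Λ) (ρ : Γ ≃* Λ) (φ : E n → E n) (a : ℝ),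
    Riem g → Riem h → Deck g Γ → Deck h Λ → Act2 n Γ → Act2 n Λ → IsFlow g Φ → IsFlow h Ψ →
    Conj Φ Ψ f → Induces f ρ → 0 < a → Band h a k → Equi ρ φ → Rough g h φ a e →
    IsoVia g h ρ := by
  obtain ⟨j, rfl⟩ : ∃ j, n = j + 3 := ⟨n - 3, by omega⟩
  obtain ⟨r, hr, B⟩ := @SLL.core ⟨j⟩ (max k 1) (le_max_right _ _)
  obtain ⟨e, he, M⟩ := @DLG.main1_of ⟨j⟩ _ _ (le_max_right _ _) hr B
  exact ⟨e, he, @finG ⟨j⟩ k _ e (le_max_left _ _) (@DLG.scale ⟨j⟩ _ _ M)⟩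

end Pool.Agent.MP_3ee8cb_gt.SLG
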